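import Pool.Agent.Work.MP_159c4a_co.Defs
import Mathlib

-- merged part: Pool.Agent.Work.MP_159c4a_co.Flags
section
/-!
Flags of a polytope and the monodromy generators.
-/

namespace Pool.Agent.Work.MP_159c4a_co

universe u
variable {n : ℕ}

namespace Polytope

variable (P : Polytope.{u} n)

lemma rank_mem (F : P.Face) : -1 ≤ P.rank F ∧ P.rank F ≤ n := by
  have : P.rank F ∈ Set.range P.rank := ⟨F, rfl⟩
  rwa [P.range_rank] at this

variable {P}

lemma eq_of_rank_eq {C : Set P.Face} (hC : IsChain (· ≤ ·) C) {F G : P.Face} (hF : F ∈ C)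
    (hG : G ∈ C) (h : P.rank F = P.rank G) : F = G := by
  by_contra hne
  rcases hC hF hG hne with h1 | h1
  · exact absurd h (P.rank_strictMono (lt_of_le_of_ne h1 hne)).ne
  · exact absurd h.symm (P.rank_strictMono (lt_of_le_of_ne h1 (Ne.symm hne))).ne

lemma le_of_rank_le {C : Set P.Face} (hC : IsChain (· ≤ ·) C) {F G : P.Face} (hF : F ∈ C)
    (hG : G ∈ C) (h : P.rank F ≤ P.rank G) : F ≤ G := by
  by_cases hne : F = G
  · exact hne.le
  rcases hC hF hG hne with h1 | h1
  · exact h1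
  · exact absurd h (not_le.2 (P.rank_strictMono (lt_of_le_of_ne h1 (Ne.symm hne))))

lemma lt_of_rank_lt {C : Set P.Face} (hC : IsChain (· ≤ ·) C) {F G : P.Face} (hF : F ∈ C)
    (hG : G ∈ C) (h : P.rank F < P.rank G) : F < G :=
  lt_of_le_of_ne (le_of_rank_le hC hF hG h.le) (fun e => by rw [e] at h; exact lt_irrefl _ h)

lemma exists_face (Φ : Flag P.Face) {k : ℤ} (h1 : -1 ≤ k) (h2 : k ≤ n) :
    ∃ F ∈ Φ, P.rank F = k := by
  have hinj : Set.InjOn P.rank (Φ : Set P.Face) := fun F hF G hG h =>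
    eq_of_rank_eq Φ.chain_le hF hG h
  have hsub : P.rank '' (Φ : Set P.Face) ⊆ Set.Icc (-1 : ℤ) n := by
    rintro _ ⟨F, -, rfl⟩; exact P.rank_mem F
  have hcard : (Set.Icc (-1 : ℤ) n).ncard ≤ (P.rank '' (Φ : Set P.Face)).ncard := by
    rw [hinj.ncard_image, P.flag_card, ← Finset.coe_Icc, Set.ncard_coe_finset, Int.card_Icc]
    omega
  have := Set.eq_of_subset_of_ncard_le hsub hcard (Set.finite_Icc _ _)
  have hk : k ∈ P.rank '' (Φ : Set P.Face) := by rw [this]; exact ⟨h1, h2⟩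
  obtain ⟨F, hF, e⟩ := hk
  exact ⟨F, hF, e⟩

lemma isMaxChain_of_ranks {C : Set P.Face} (hC : IsChain (· ≤ ·) C)
    (h : ∀ k : ℤ, -1 ≤ k → k ≤ n → ∃ F ∈ C, P.rank F = k) : IsMaxChain (· ≤ ·) C := by
  refine ⟨hC, fun D hD hCD => Set.Subset.antisymm hCD fun y hy => ?_⟩
  obtain ⟨x, hx, e⟩ := h _ (P.rank_mem y).1 (P.rank_mem y).2
  rwa [← eq_of_rank_eq hD (hCD hx) hy e]

open Classical in
/-- the face of rank `k` of a flag -/
noncomputable def face (Φ : Flag P.Face) (k : ℤ) : P.Face :=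
  if h : ∃ F ∈ Φ, P.rank F = k then h.choose else ⊥

lemma face_mem (Φ : Flag P.Face) (k : ℤ) : face Φ k ∈ Φ := by
  unfold face
  split_ifs with h
  · exact h.choose_spec.1
  · exact Φ.bot_mem

lemma rank_face (Φ : Flag P.Face) {k : ℤ} (h1 : -1 ≤ k) (h2 : k ≤ n) :
    P.rank (face Φ k) = k := by
  have h := exists_face Φ h1 h2
  unfold face
  rw [dif_pos h]
  exact h.choose_spec.2

lemma face_out (Φ : Flag P.Face) {k : ℤ} (h : ¬ (-1 ≤ k ∧ k ≤ n)) : face Φ k = ⊥ := by
  unfold face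
  rw [dif_neg]
  rintro ⟨F, -, rfl⟩
  exact h (P.rank_mem F)

lemma face_eq {Φ : Flag P.Face} {F : P.Face} (hF : F ∈ Φ) : face Φ (P.rank F) = F :=
  eq_of_rank_eq Φ.chain_le (face_mem Φ _) hF (rank_face Φ (P.rank_mem F).1 (P.rank_mem F).2)

lemma mem_iff_face {Φ : Flag P.Face} {F : P.Face} : F ∈ Φ ↔ face Φ (P.rank F) = F :=
  ⟨face_eq, fun h => h ▸ face_mem Φ _⟩

lemma face_eq_iff {Φ Ψ : Flag P.Face} {k : ℤ} :
    face Φ k = face Ψ k ↔ ∀ F, P.rank F = k → (F ∈ Φ ↔ F ∈ Ψ) := by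
  constructor
  · rintro h F rfl
    rw [mem_iff_face, mem_iff_face, h]
  · intro h
    by_cases hk : -1 ≤ k ∧ k ≤ n
    · have h1 := rank_face Φ hk.1 hk.2
      have h2 := face_eq ((h _ h1).1 (face_mem Φ k))
      rw [h1] at h2
      exact h2.symm
    · rw [face_out Φ hk, face_out Ψ hk]

lemma flag_ext {Φ Ψ : Flag P.Face} (h : ∀ k, face Φ k = face Ψ k) : Φ = Ψ :=
  Flag.ext (Set.ext fun F => face_eq_iff.1 (h _) F rfl)

lemma adj_iff {i : Fin n} {Φ Ψ : Flag P.Face} :
    P.Adj i Φ Ψ ↔ face Φ (i : ℕ) ≠ face Ψ (i : ℕ) ∧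
      ∀ k : ℤ, k ≠ (i : ℕ) → face Φ k = face Ψ k := by
  constructor
  · rintro ⟨h1, h2⟩
    have h3 : ∀ k, k ≠ ((i : ℕ) : ℤ) → face Φ k = face Ψ k := fun k hk =>
      face_eq_iff.2 fun F hF => h2 F (hF ▸ hk)
    refine ⟨fun h => h1 (flag_ext fun k => ?_), h3⟩
    by_cases hk : k = (i : ℕ)
    · rw [hk, h]
    · exact h3 k hk
  · rintro ⟨h1, h2⟩
    exact ⟨fun h => h1 (h ▸ rfl), fun F hF => face_eq_iff.1 (h2 _ hF) F rfl⟩

lemma Adj.symm {i : Fin n} {Φ Ψ : Flag P.Face} (h : P.Adj i Φ Ψ) : P.Adj i Ψ Φ :=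
  ⟨h.1.symm, fun F hF => (h.2 F hF).symm⟩

lemma between (Φ : Flag P.Face) (i : Fin n) :
    face Φ ((i : ℕ) - 1) < face Φ (i : ℕ) ∧ face Φ (i : ℕ) < face Φ ((i : ℕ) + 1) := by
  have hi := i.2
  constructor
  · refine lt_of_rank_lt Φ.chain_le (face_mem _ _) (face_mem _ _) ?_
    rw [rank_face Φ (by omega) (by omega), rank_face Φ (by omega) (by omega)]; omega
  · refine lt_of_rank_lt Φ.chain_le (face_mem _ _) (face_mem _ _) ?_
    rw [rank_face Φ (by omega) (by omega), rank_face Φ (by omega) (by omega)]; omega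

lemma other (Φ : Flag P.Face) (i : Fin n) : ∃ H, H ≠ face Φ (i : ℕ) ∧
    {H | face Φ ((i : ℕ) - 1) < H ∧ H < face Φ ((i : ℕ) + 1)} = {face Φ (i : ℕ), H} := by
  have hi := i.2
  have hb := between Φ i
  have hd := P.diamond _ _ (hb.1.trans hb.2) (by
    rw [rank_face Φ (by omega) (by omega), rank_face Φ (by omega) (by omega)]; omega)
  obtain ⟨x, y, hxy, e⟩ := Set.ncard_eq_two.1 hd
  have hm : face Φ (i : ℕ) ∈ ({x, y} : Set P.Face) := e ▸ hb
  rcases hm with h | h
  · exact ⟨y, fun h' => hxy (h.symm.trans h'.symm), by rw [e, h]⟩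
  · rw [Set.mem_singleton_iff] at h
    exact ⟨x, fun h' => hxy (h'.trans h), by rw [e, h, Set.pair_comm]⟩

/-- the new face of an adjacent flag only depends on three faces of the flag -/
lemma adj_face_eq {i : Fin n} {Φ Φ' Ψ Ψ' : Flag P.Face} (h : P.Adj i Φ Ψ) (h' : P.Adj i Φ' Ψ')
    (e1 : face Φ ((i : ℕ) - 1) = face Φ' ((i : ℕ) - 1)) (e2 : face Φ (i : ℕ) = face Φ' (i : ℕ))
    (e3 : face Φ ((i : ℕ) + 1) = face Φ' ((i : ℕ) + 1)) : face Ψ (i : ℕ) = face Ψ' (i : ℕ) := by
  obtain ⟨H, -, e⟩ := other Φ i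
  rw [adj_iff] at h h'
  have b := between Ψ i
  have b' := between Ψ' i
  rw [← h.2 ((i : ℕ) - 1) (by omega), ← h.2 ((i : ℕ) + 1) (by omega)] at b
  rw [← h'.2 ((i : ℕ) - 1) (by omega), ← h'.2 ((i : ℕ) + 1) (by omega), ← e1, ← e3] at b'
  have m : face Ψ (i : ℕ) ∈ ({face Φ (i : ℕ), H} : Set P.Face) := e ▸ b
  have m' : face Ψ' (i : ℕ) ∈ ({face Φ (i : ℕ), H} : Set P.Face) := e ▸ b'
  rcases m with m | m
  · exact absurd m.symm h.1
  rcases m' with m' | m'
  · exact absurd (e2.symm.trans m'.symm) h'.1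
  exact m.trans m'.symm

lemma adj_unique {i : Fin n} {Φ Ψ Ψ' : Flag P.Face} (h : P.Adj i Φ Ψ) (h' : P.Adj i Φ Ψ') :
    Ψ = Ψ' := by
  refine flag_ext fun k => ?_
  by_cases hk : k = (i : ℕ)
  · rw [hk]; exact adj_face_eq h h' rfl rfl rfl
  · rw [← (adj_iff.1 h).2 k hk, (adj_iff.1 h').2 k hk]

lemma exists_adj (i : Fin n) (Φ : Flag P.Face) : ∃ Ψ, P.Adj i Φ Ψ := by
  have hi := i.2
  obtain ⟨H, hH, e⟩ := other Φ i
  have hb : face Φ ((i : ℕ) - 1) < H ∧ H < face Φ ((i : ℕ) + 1) := by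
    have : H ∈ ({face Φ (i : ℕ), H} : Set P.Face) := by simp
    rwa [← e] at this
  have r1 := rank_face Φ (k := (i : ℕ) - 1) (by omega) (by omega)
  have r2 := rank_face Φ (k := (i : ℕ) + 1) (by omega) (by omega)
  have rH : P.rank H = (i : ℕ) := by
    have := P.rank_strictMono hb.1
    have := P.rank_strictMono hb.2
    omega
  have hC : IsChain (· ≤ ·) (insert H {F | F ∈ Φ ∧ P.rank F ≠ (i : ℕ)}) := by
    refine IsChain.insert (Φ.chain_le.mono fun F hF => hF.1) ?_
    rintro F ⟨hF, hr⟩ -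
    rcases lt_or_gt_of_ne hr with h | h
    · exact Or.inr ((le_of_rank_le Φ.chain_le hF (face_mem _ _) (by omega)).trans hb.1.le)
    · exact Or.inl (hb.2.le.trans (le_of_rank_le Φ.chain_le (face_mem _ _) hF (by omega)))
  have hM := isMaxChain_of_ranks hC (fun k h1 h2 => by
    by_cases hk : k = (i : ℕ)
    · exact ⟨H, Or.inl rfl, hk ▸ rH⟩
    · exact ⟨face Φ k, Or.inr ⟨face_mem _ _, by rwa [rank_face Φ h1 h2]⟩, rank_face Φ h1 h2⟩)
  refine ⟨Flag.ofIsMaxChain _ hM, fun h => hH ?_, fun F hF => ?_⟩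
  · have : H ∈ Φ := by
      rw [h]; exact Or.inl rfl
    rw [← face_eq this, rH]
  · change F ∈ Φ ↔ F ∈ insert H {F | F ∈ Φ ∧ P.rank F ≠ (i : ℕ)}
    constructor
    · exact fun h => Or.inr ⟨h, hF⟩
    · rintro (rfl | h)
      · exact absurd rH hF
      · exact h.1

lemma adj_monGen (i : Fin n) (Φ : Flag P.Face) : P.Adj i Φ (P.monGen i Φ) := by
  have h : ∃ σ : Equiv.Perm (Flag P.Face), ∀ Φ, P.Adj i Φ (σ Φ) := by
    choose f hf using exists_adj (P := P) i
    have : Function.Involutive f := fun Φ => adj_unique (hf (f Φ)) (hf Φ).symm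
    exact ⟨this.toPerm f, hf⟩
  unfold monGen
  rw [dif_pos h]
  exact h.choose_spec Φ

lemma monGen_eq {i : Fin n} {Φ Ψ : Flag P.Face} (h : P.Adj i Φ Ψ) : P.monGen i Φ = Ψ :=
  adj_unique (adj_monGen i Φ) h

lemma monGen_sq (i : Fin n) : P.monGen i * P.monGen i = 1 :=
  Equiv.ext fun Φ => monGen_eq (adj_monGen i Φ).symm

lemma nonempty_flag : Nonempty (Flag P.Face) := ⟨(Flag.exists_mem (⊥ : P.Face)).choose⟩

lemma monGen_ne_one (i : Fin n) : P.monGen i ≠ 1 := by
  intro h
  obtain ⟨Φ⟩ := nonempty_flag (P := P)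
  exact (adj_monGen i Φ).1 (by rw [h]; rfl)

lemma face_monGen (i : Fin n) (Φ : Flag P.Face) {k : ℤ} (hk : k ≠ (i : ℕ)) :
    face (P.monGen i Φ) k = face Φ k := ((adj_iff.1 (adj_monGen i Φ)).2 k hk).symm

lemma monGen_comm {i j : Fin n} (h : (i : ℕ) + 2 ≤ j) :
    P.monGen i * P.monGen j = P.monGen j * P.monGen i := by
  refine Equiv.ext fun Φ => flag_ext fun k => ?_
  simp only [Equiv.Perm.mul_apply]
  by_cases hi : k = (i : ℕ)
  · rw [face_monGen j _ (by omega), hi]
    exact adj_face_eq (adj_monGen i _) (adj_monGen i _) (face_monGen j _ (by omega))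
      (face_monGen j _ (by omega)) (face_monGen j _ (by omega))
  by_cases hj : k = (j : ℕ)
  · rw [face_monGen i _ hi, hj]
    exact adj_face_eq (adj_monGen j _) (adj_monGen j _) (face_monGen i _ (by omega)).symm
      (face_monGen i _ (by omega)).symm (face_monGen i _ (by omega)).symm
  rw [face_monGen i _ hi, face_monGen j _ hj, face_monGen j _ hj, face_monGen i _ hi]

lemma face_of_mem_closure {I : Set (Fin n)} {σ : Equiv.Perm (Flag P.Face)}
    (hσ : σ ∈ Subgroup.closure (P.monGen '' I)) {k : ℤ} (hk : ∀ i ∈ I, k ≠ (i : ℕ))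
    (Φ : Flag P.Face) : face (σ Φ) k = face Φ k := by
  induction hσ using Subgroup.closure_induction generalizing Φ with
  | mem x hx =>
    obtain ⟨i, hi, rfl⟩ := hx
    exact face_monGen i Φ (hk i hi)
  | one => rfl
  | mul x y _ _ hx hy => rw [Equiv.Perm.mul_apply, hx, hy]
  | inv x _ hx =>
    have := hx (x⁻¹ Φ)
    simpa using this.symm

lemma exists_of_agree {I : Set (Fin n)} {Φ Ψ : Flag P.Face}
    (h : ∀ i : Fin n, i ∉ I → face Φ (i : ℕ) = face Ψ (i : ℕ)) :
    ∃ σ ∈ Subgroup.closure (P.monGen '' I), σ Φ = Ψ := by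
  have key : ∀ B, Relation.ReflTransGen (fun A B : Flag P.Face =>
      (∃ i : Fin n, A ≠ B ∧ ∀ F, P.rank F ≠ (i : ℕ) → (F ∈ A ↔ F ∈ B)) ∧
        ∀ F, F ∈ Φ → F ∈ Ψ → F ∈ A ∧ F ∈ B) Φ B →
      ∃ σ ∈ Subgroup.closure (P.monGen '' I), σ Φ = B := by
    intro B hB
    induction hB with
    | refl => exact ⟨1, one_mem _, rfl⟩
    | @tail A B _ hAB ih =>
      obtain ⟨σ, hσ, rfl⟩ := ih
      obtain ⟨⟨i, hi⟩, h2⟩ := hAB
      have hadj : P.Adj i (σ Φ) B := hi
      have hiI : i ∈ I := by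
        by_contra hne
        have hi2 := i.2
        have r := rank_face Φ (k := (i : ℕ)) (by omega) (by omega)
        obtain ⟨m1, m2⟩ := h2 (face Φ (i : ℕ)) (face_mem _ _) (h i hne ▸ face_mem _ _)
        have e1 := face_eq m1
        have e2 := face_eq m2
        rw [r] at e1 e2
        exact (adj_iff.1 hadj).1 (e1.trans e2.symm)
      exact ⟨P.monGen i * σ, mul_mem (Subgroup.subset_closure ⟨i, hiI, rfl⟩) hσ, monGen_eq hadj⟩
  exact key Ψ (P.connected Φ Ψ)

lemma face_bot_top (Φ Ψ : Flag P.Face) {k : ℤ} (hk : ∀ i : Fin n, k ≠ (i : ℕ)) :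
    face Φ k = face Ψ k := by
  obtain ⟨σ, hσ, rfl⟩ := exists_of_agree (I := Set.univ) (Φ := Φ) (Ψ := Ψ) (by simp)
  exact (face_of_mem_closure hσ (fun i _ => hk i) Φ).symm

lemma closure_disjoint {I J : Set (Fin n)} (h : Disjoint I J) {σ : Equiv.Perm (Flag P.Face)}
    (h1 : σ ∈ Subgroup.closure (P.monGen '' I)) (h2 : σ ∈ Subgroup.closure (P.monGen '' J)) :
    σ = 1 := by
  refine Equiv.ext fun Φ => flag_ext fun k => ?_
  by_cases hI : ∀ i ∈ I, k ≠ (i : ℕ)
  · exact face_of_mem_closure h1 hI Φ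
  · push Not at hI
    obtain ⟨i, hi, rfl⟩ := hI
    refine face_of_mem_closure h2 (fun j hj e => ?_) Φ
    have : i = j := Fin.ext (by omega)
    exact Set.disjoint_left.1 h hi (this ▸ hj)

/-! ### regular polytopes -/

lemma rank_aut (f : P.Face ≃o P.Face) (F : P.Face) : P.rank (f F) = P.rank F := by
  obtain ⟨Φ, hΦ⟩ := Flag.exists_mem F
  have hm : ∀ G, G ∈ Φ → f G ∈ Flag.map f Φ := fun G hG => ⟨G, hG, rfl⟩
  let a : Set.Icc (-1 : ℤ) n → Set.Icc (-1 : ℤ) n := fun k => ⟨P.rank (f (face Φ k)), P.rank_mem _⟩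
  have ha : StrictMono a := by
    intro k l hkl
    refine P.rank_strictMono (f.strictMono ?_)
    refine lt_of_rank_lt Φ.chain_le (face_mem _ _) (face_mem _ _) ?_
    rw [rank_face Φ k.2.1 k.2.2, rank_face Φ l.2.1 l.2.2]
    exact hkl
  have h1 := ha.le_apply (x := ⟨P.rank F, P.rank_mem F⟩)
  have h2 := ha.apply_le (x := ⟨P.rank F, P.rank_mem F⟩)
  have h3 := congrArg Subtype.val (le_antisymm h2 h1)
  simpa [a, face_eq hΦ] using h3

lemma adj_map (f : P.Face ≃o P.Face) {i : Fin n} {Φ Ψ : Flag P.Face} (h : P.Adj i Φ Ψ) :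
    P.Adj i (Flag.map f Φ) (Flag.map f Ψ) := by
  refine ⟨fun e => h.1 ((Flag.map f).injective e), fun F hF => ?_⟩
  obtain ⟨G, rfl⟩ := f.surjective F
  rw [rank_aut] at hF
  have hm : ∀ A : Flag P.Face, f G ∈ Flag.map f A ↔ G ∈ A := fun A =>
    ⟨fun ⟨G', hG', e⟩ => f.injective e ▸ hG', fun hG => ⟨G, hG, rfl⟩⟩
  rw [hm, hm]
  exact h.2 G hF

lemma map_comm (f : P.Face ≃o P.Face) {σ : Equiv.Perm (Flag P.Face)}
    (hσ : σ ∈ Subgroup.closure (Set.range P.monGen)) (Φ : Flag P.Face) :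
    σ (Flag.map f Φ) = Flag.map f (σ Φ) := by
  induction hσ using Subgroup.closure_induction generalizing Φ with
  | mem x hx =>
    obtain ⟨i, rfl⟩ := hx
    exact monGen_eq (adj_map f (adj_monGen i Φ))
  | one => rfl
  | mul x y _ _ hx hy => rw [Equiv.Perm.mul_apply, hy, hx, Equiv.Perm.mul_apply]
  | inv x _ hx =>
    rw [Equiv.Perm.inv_eq_iff_eq, hx]
    simp

lemma Regular.inter (hP : P.Regular) (I J : Set (Fin n)) {σ : Equiv.Perm (Flag P.Face)}
    (h1 : σ ∈ Subgroup.closure (P.monGen '' I)) (h2 : σ ∈ Subgroup.closure (P.monGen '' J)) :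
    σ ∈ Subgroup.closure (P.monGen '' (I ∩ J)) := by
  obtain ⟨Φ⟩ := nonempty_flag (P := P)
  obtain ⟨τ, hτ, e⟩ := exists_of_agree (I := I ∩ J) (Φ := Φ) (Ψ := σ Φ) (fun i hi => by
    rw [Set.mem_inter_iff, not_and_or] at hi
    rcases hi with hi | hi
    · refine (face_of_mem_closure h1 (fun j hj e => hi ?_) Φ).symm
      rwa [show i = j from Fin.ext (by omega)]
    · refine (face_of_mem_closure h2 (fun j hj e => hi ?_) Φ).symm
      rwa [show i = j from Fin.ext (by omega)])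
  have : σ = τ := by
    refine Equiv.ext fun Ψ => ?_
    obtain ⟨f, rfl⟩ := hP Φ Ψ
    rw [map_comm f (Subgroup.closure_mono (Set.image_subset_range _ _) h1),
      map_comm f (Subgroup.closure_mono (Set.image_subset_range _ _) hτ), e]
  exact this ▸ hτ

/-! ### coverings -/

lemma Covers.word {Q : Polytope.{u} n} (h : P.Covers Q) (w : FreeGroup (Fin n))
    (hw : FreeGroup.lift P.monGen w = 1) : FreeGroup.lift Q.monGen w = 1 := by
  obtain ⟨φ, -, hmono, hrank, hadj⟩ := h
  have hM : ∀ Φ : Flag P.Face, IsMaxChain (· ≤ ·) (φ '' Φ) := fun Φ =>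
    isMaxChain_of_ranks (hmono.isChain_image Φ.chain_le) fun k h1 h2 =>
      ⟨φ (face Φ k), ⟨_, face_mem _ _, rfl⟩, by rw [hrank, rank_face Φ h1 h2]⟩
  let T : Flag P.Face → Flag Q.Face := fun Φ => Flag.ofIsMaxChain _ (hM Φ)
  have hT : ∀ i Φ, T (P.monGen i Φ) = Q.monGen i (T Φ) := by
    intro i Φ
    obtain ⟨Φ', Ψ', e1, e2, h⟩ := hadj i Φ _ (adj_monGen i Φ)
    have e1 : Φ' = T Φ := Flag.ext e1
    have e2 : Ψ' = T (P.monGen i Φ) := Flag.ext e2
    rw [← e1, ← e2]
    exact (monGen_eq h).symm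
  have hw' : ∀ (w : FreeGroup (Fin n)) Φ,
      T (FreeGroup.lift P.monGen w Φ) = FreeGroup.lift Q.monGen w (T Φ) := by
    intro w
    induction w using FreeGroup.induction_on with
    | C1 => intro Φ; simp
    | of i => intro Φ; simpa using hT i Φ
    | inv_of i ih =>
      intro Φ
      rw [map_inv, map_inv, FreeGroup.lift_apply_of, FreeGroup.lift_apply_of,
        inv_eq_of_mul_eq_one_left (monGen_sq i), inv_eq_of_mul_eq_one_left (monGen_sq i)]
      exact hT i Φ
    | mul x y hx hy => intro Φ; simp [hx, hy]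
  have hsurj : ∀ Ψ, ∃ Φ, T Φ = Ψ := by
    intro Ψ
    obtain ⟨Φ⟩ := nonempty_flag (P := P)
    obtain ⟨σ, hσ, rfl⟩ := exists_of_agree (I := Set.univ) (Φ := T Φ) (Ψ := Ψ) (by simp)
    rw [Set.image_univ, ← FreeGroup.range_lift_eq_closure] at hσ
    obtain ⟨v, rfl⟩ := hσ
    exact ⟨_, hw' v Φ⟩
  refine Equiv.ext fun Ψ => ?_
  obtain ⟨Φ, rfl⟩ := hsurj Ψ
  rw [← hw', hw]; rfl

end Polytope

end Pool.Agent.Work.MP_159c4a_co
end

-- merged part: Pool.Agent.Work.MP_159c4a_co.Group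
section
/-!
Every string group generated by involutions (with a mild separation property) has, for each
modulus `m ≥ 2`, an extension with kernel of exponent a power of `m` that has the intersection
property.
-/

namespace Pool.Agent.Work.MP_159c4a_co

universe u
variable {n : ℕ}

/-- the subgroup generated by the generators whose index satisfies `p` -/
def Gen {G : Type*} [Group G] (r : Fin n → G) (p : ℕ → Prop) : Subgroup G :=
  Subgroup.closure (r '' {i | p i})

/-- string relations -/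
structure Str {G : Type*} [Group G] (r : Fin n → G) : Prop where
  sq : ∀ i, r i * r i = 1
  comm : ∀ i j : Fin n, (i : ℕ) + 2 ≤ j → r i * r j = r j * r i

section
variable {G : Type*} [Group G] {r : Fin n → G}

lemma Gen.mono {p q : ℕ → Prop} (h : ∀ i, i < n → p i → q i) : Gen r p ≤ Gen r q :=
  Subgroup.closure_mono (Set.image_mono fun i hi => h i i.2 hi)

lemma Gen.mem {p : ℕ → Prop} {i : Fin n} (h : p i) : r i ∈ Gen r p :=
  Subgroup.subset_closure ⟨i, h, rfl⟩

lemma Gen.eq_one {p : ℕ → Prop} (h : ∀ i, i < n → ¬ p i) {x : G} (hx : x ∈ Gen r p) : x = 1 := by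
  have : r '' {i : Fin n | p i} = ∅ := by
    rw [Set.image_eq_empty, Set.eq_empty_iff_forall_notMem]
    exact fun i hi => h i i.2 hi
  rwa [Gen, this, Subgroup.closure_empty, Subgroup.mem_bot] at hx

lemma Str.commute (hr : Str r) {p q : ℕ → Prop} (h : ∀ i j, p i → q j → i + 2 ≤ j) {a b : G}
    (ha : a ∈ Gen r p) (hb : b ∈ Gen r q) : Commute a b := by
  induction ha using Subgroup.closure_induction with
  | mem x hx =>
    obtain ⟨i, hi, rfl⟩ := hx
    induction hb using Subgroup.closure_induction with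
    | mem y hy =>
      obtain ⟨j, hj, rfl⟩ := hy
      exact hr.comm i j (h i j hi hj)
    | one => exact Commute.one_right _
    | mul x y _ _ hx hy => exact hx.mul_right hy
    | inv x _ hx => exact hx.inv_right
  | one => exact Commute.one_left _
  | mul x y _ _ hx hy => exact hx.mul_left hy
  | inv x _ hx => exact hx.inv_left

lemma Str.split (hr : Str r) {p q s : ℕ → Prop} (h : ∀ i j, p i → q j → i + 2 ≤ j)
    (hs : ∀ i, i < n → s i → p i ∨ q i) {x : G} (hx : x ∈ Gen r s) :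
    ∃ a ∈ Gen r p, ∃ b ∈ Gen r q, x = a * b := by
  induction hx using Subgroup.closure_induction with
  | mem x hx =>
    obtain ⟨i, hi, rfl⟩ := hx
    rcases hs i i.2 hi with h1 | h1
    · exact ⟨r i, Gen.mem h1, 1, one_mem _, (mul_one _).symm⟩
    · exact ⟨1, one_mem _, r i, Gen.mem h1, (one_mul _).symm⟩
  | one => exact ⟨1, one_mem _, 1, one_mem _, (mul_one _).symm⟩
  | mul x y _ _ hx hy =>
    obtain ⟨a, ha, b, hb, rfl⟩ := hx
    obtain ⟨c, hc, d, hd, rfl⟩ := hy
    refine ⟨a * c, mul_mem ha hc, b * d, mul_mem hb hd, ?_⟩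
    have := (hr.commute h hc hb).eq
    rw [mul_assoc, ← mul_assoc b, ← this]; group
  | inv x _ hx =>
    obtain ⟨a, ha, b, hb, rfl⟩ := hx
    refine ⟨a⁻¹, inv_mem ha, b⁻¹, inv_mem hb, ?_⟩
    rw [(hr.commute h ha hb).eq, mul_inv_rev]

/-- the interval form of the intersection property, up to the bound `j` -/
def IP (r : Fin n → G) (j : ℕ) : Prop :=
  ∀ k j', j' ≤ j → ∀ x, x ∈ Gen r (k ≤ ·) → x ∈ Gen r (· < j') → x ∈ Gen r fun i => k ≤ i ∧ i < j'

/-- the separation property from `j` on -/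
def Sep (r : Fin n → G) (j : ℕ) : Prop :=
  ∀ j', j ≤ j' → ∀ x, x ∈ Gen r (j' + 2 ≤ ·) → x ∈ Gen r (· < j' + 1) → x = 1

lemma Str.strip (hr : Str r) (p : ℕ → Prop) (m : ℕ) : ∃ k, k ≤ m + 1 ∧
    (∀ i, k ≤ i → i ≤ m → p i) ∧ ∀ x ∈ Gen r (fun i => p i ∧ i < m + 1),
      ∃ a ∈ Gen r (fun i => p i ∧ i + 1 < k ∧ i < m), ∃ b ∈ Gen r (fun i => k ≤ i ∧ i ≤ m),
        x = a * b := by
  classical
  have hex : ∃ k, ∀ i, k ≤ i → i ≤ m → p i := ⟨m + 1, fun i h1 h2 => by omega⟩
  have hk := Nat.find_spec hex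
  have hk2 : Nat.find hex ≤ m + 1 := Nat.find_min' hex fun i h1 h2 => by omega
  refine ⟨Nat.find hex, hk2, hk, fun x hx => hr.split (fun i j hi hj => by omega) ?_ hx⟩
  rintro i - ⟨h1, h2⟩
  by_cases hi : Nat.find hex ≤ i
  · exact Or.inr ⟨hi, by omega⟩
  · have : i + 1 ≠ Nat.find hex := by
      intro e
      refine Nat.find_min hex (show i < Nat.find hex by omega) fun t h3 h4 => ?_
      rcases eq_or_lt_of_le h3 with rfl | h5
      · exact h1
      · exact hk t (by omega) h4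
    exact Or.inl ⟨h1, by omega, by omega⟩

lemma Str.inter (hr : Str r) (hIP : IP r n) (p q : ℕ → Prop) {x : G} (h1 : x ∈ Gen r p)
    (h2 : x ∈ Gen r q) : x ∈ Gen r fun i => p i ∧ q i := by
  have key : ∀ m, m ≤ n → ∀ (p q : ℕ → Prop) (x : G), x ∈ Gen r (fun i => p i ∧ i < m) →
      x ∈ Gen r (fun i => q i ∧ i < m) → x ∈ Gen r fun i => p i ∧ q i := by
    intro m
    induction m with
    | zero =>
      intro _ p q x h1 _
      rw [Gen.eq_one (fun i _ h => by omega) h1]; exact one_mem _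
    | succ m ih =>
      intro hm
      have aux : ∀ (p q : ℕ → Prop) (k l : ℕ), l ≤ k → (∀ i, k ≤ i → i ≤ m → p i) →
          (∀ i, l ≤ i → i ≤ m → q i) →
          (∀ x ∈ Gen r (fun i => p i ∧ i < m + 1),
            ∃ a ∈ Gen r (fun i => p i ∧ i + 1 < k ∧ i < m),
              ∃ b ∈ Gen r (fun i => k ≤ i ∧ i ≤ m), x = a * b) →
          (∀ x ∈ Gen r (fun i => q i ∧ i < m + 1),
            ∃ a ∈ Gen r (fun i => q i ∧ i + 1 < l ∧ i < m),
              ∃ b ∈ Gen r (fun i => l ≤ i ∧ i ≤ m), x = a * b) →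
          ∀ x, x ∈ Gen r (fun i => p i ∧ i < m + 1) → x ∈ Gen r (fun i => q i ∧ i < m + 1) →
            x ∈ Gen r fun i => p i ∧ q i := by
        intro p q k l hlk hp hq sp sq x h1 h2
        obtain ⟨a, ha, b, hb, rfl⟩ := sp x h1
        have hb1 : b ∈ Gen r fun i => p i ∧ q i :=
          Gen.mono (fun i _ h => ⟨hp i h.1 h.2, hq i (by omega) h.2⟩) hb
        have hb2 : b ∈ Gen r fun i => q i ∧ i < m + 1 :=
          Gen.mono (fun i _ h => ⟨hq i (by omega) h.2, by omega⟩) hb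
        have ha2 : a ∈ Gen r fun i => q i ∧ i < m + 1 := by
          simpa using mul_mem h2 (inv_mem hb2)
        obtain ⟨c, hc, d, hd, e⟩ := sq a ha2
        have hd1 : d ∈ Gen r (· < m) := by
          have : d = c⁻¹ * a := by rw [e]; group
          rw [this]
          exact mul_mem (inv_mem (Gen.mono (fun i _ h => h.2.2) hc))
            (Gen.mono (fun i _ h => h.2.2) ha)
        have hd2 := hIP l m (by omega) d (Gen.mono (fun i _ h => h.1) hd) hd1
        have ha3 : a ∈ Gen r fun i => q i ∧ i < m := by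
          rw [e]
          exact mul_mem (Gen.mono (fun i _ h => ⟨h.1, h.2.2⟩) hc)
            (Gen.mono (fun i _ h => ⟨hq i h.1 (by omega), h.2⟩) hd2)
        exact mul_mem (ih (by omega) p q a (Gen.mono (fun i _ h => ⟨h.1, h.2.2⟩) ha) ha3) hb1
      intro p q x h1 h2
      obtain ⟨k, -, hp, sp⟩ := hr.strip p m
      obtain ⟨l, -, hq, sq⟩ := hr.strip q m
      rcases le_total l k with h | h
      · exact aux p q k l h hp hq sp sq x h1 h2
      · exact Gen.mono (fun i _ h => h.symm) (aux q p l k h hq hp sq sp x h2 h1)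
  exact key n le_rfl p q x (Gen.mono (fun i hi h => ⟨h, hi⟩) h1)
    (Gen.mono (fun i hi h => ⟨h, hi⟩) h2)

end

/-! ### the extension -/

/-- pairs of a functional on test functions and a group element -/
@[ext] structure Extn (G : Type u) [Group G] (H : Subgroup G) (m : ℕ) : Type u where
  /-- the chain -/
  a : (G ⧸ H → ZMod m) → ZMod m
  /-- the group element -/
  g : G

namespace Extn

variable {G : Type u} [Group G] {H : Subgroup G} {m : ℕ}

instance : Mul (Extn G H m) :=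
  ⟨fun x y => ⟨fun β => x.a β + y.a fun q => β (x.g • q), x.g * y.g⟩⟩
instance : One (Extn G H m) := ⟨⟨fun _ => 0, 1⟩⟩
instance : Inv (Extn G H m) := ⟨fun x => ⟨fun β => -x.a fun q => β (x.g⁻¹ • q), x.g⁻¹⟩⟩

@[simp] lemma mul_a (x y : Extn G H m) (β) :
    (x * y).a β = x.a β + y.a fun q => β (x.g • q) := rfl
@[simp] lemma mul_g (x y : Extn G H m) : (x * y).g = x.g * y.g := rfl
@[simp] lemma one_a (β) : (1 : Extn G H m).a β = 0 := rfl
@[simp] lemma one_g : (1 : Extn G H m).g = 1 := rfl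
@[simp] lemma inv_a (x : Extn G H m) (β) : x⁻¹.a β = -x.a fun q => β (x.g⁻¹ • q) := rfl
@[simp] lemma inv_g (x : Extn G H m) : x⁻¹.g = x.g⁻¹ := rfl

instance : Group (Extn G H m) := Group.ofLeftAxioms
  (fun x y z => by
    ext β
    · simp [add_assoc, mul_smul]
    · simp [mul_assoc])
  (fun x => by
    ext β
    · simp
    · simp)
  (fun x => by
    ext β
    · simp
    · simp)

/-- the projection -/
def proj : Extn G H m →* G := MonoidHom.mk' (fun x => x.g) fun _ _ => rfl

/-- the splitting -/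
def inr : G →* Extn G H m := MonoidHom.mk' (fun g => ⟨fun _ => 0, g⟩) fun x y => by
  ext β
  · simp
  · simp

lemma pow_eq_one {x : Extn G H m} (h : x.g = 1) : x ^ m = 1 := by
  have : ∀ k : ℕ, (x ^ k).g = 1 ∧ ∀ β, (x ^ k).a β = k * x.a β := by
    intro k
    induction k with
    | zero => simp
    | succ k ih =>
      rw [pow_succ]
      refine ⟨by simp [ih.1, h], fun β => ?_⟩
      simp [ih.1, ih.2, add_mul]
  ext β
  · simp [(this m).2]
  · simp [(this m).1]

end Extn

section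
variable {G : Type u} [Group G] (r : Fin n → G) (j m : ℕ)

/-- the edge stabiliser -/
abbrev edge : Subgroup G := Gen r fun i => i ≠ j ∧ i ≠ j + 1

/-- the lifted generators -/
def lft (i : Fin n) : Extn G (edge r j) m :=
  ⟨fun β => if (i : ℕ) = j + 1 then β ((1 : G) : G ⧸ edge r j) - β (r i : G ⧸ edge r j) else 0, r i⟩

variable {r j m}

lemma lft_of_ne {i : Fin n} (h : (i : ℕ) ≠ j + 1) : lft r j m i = Extn.inr (r i) := by
  ext β
  · simp [lft, h, Extn.inr]
  · rfl

lemma mem_Gen_lft {p : ℕ → Prop} (hp : ¬ p (j + 1)) {x : Extn G (edge r j) m}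
    (hx : x ∈ Gen (lft r j m) p) : x = Extn.inr x.g := by
  induction hx using Subgroup.closure_induction with
  | mem x hx =>
    obtain ⟨i, hi, rfl⟩ := hx
    exact lft_of_ne fun e => hp (e ▸ hi)
  | one => exact (map_one _).symm
  | mul x y _ _ hx hy => rw [Extn.mul_g, map_mul, ← hx, ← hy]
  | inv x _ hx => rw [Extn.inv_g, map_inv, ← hx]

lemma proj_mem {p : ℕ → Prop} {x : Extn G (edge r j) m} (hx : x ∈ Gen (lft r j m) p) :
    x.g ∈ Gen r p := by
  induction hx using Subgroup.closure_induction with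
  | mem x hx =>
    obtain ⟨i, hi, rfl⟩ := hx
    exact Gen.mem hi
  | one => exact one_mem _
  | mul x y _ _ hx hy => exact mul_mem hx hy
  | inv x _ hx => exact inv_mem hx

lemma inr_mem {p : ℕ → Prop} (hp : ¬ p (j + 1)) {g : G} (hg : g ∈ Gen r p) :
    (Extn.inr g : Extn G (edge r j) m) ∈ Gen (lft r j m) p := by
  induction hg using Subgroup.closure_induction with
  | mem x hx =>
    obtain ⟨i, hi, rfl⟩ := hx
    rw [← lft_of_ne fun e => hp (e ▸ hi)]
    exact Gen.mem hi
  | one => rw [map_one]; exact one_mem _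
  | mul x y _ _ hx hy => rw [map_mul]; exact mul_mem hx hy
  | inv x _ hx => rw [map_inv]; exact inv_mem hx

lemma coe_mul_edge (g : G) {h : G} (hh : h ∈ edge r j) :
    ((g * h : G) : G ⧸ edge r j) = g := by
  rw [QuotientGroup.eq]; simpa using hh

lemma str_lft (hr : Str r) : Str (lft r j m) := by
  constructor
  · intro i
    ext β
    · by_cases h : (i : ℕ) = j + 1
      · simp [lft, h, hr.sq i]
      · simp [lft, h]
    · exact hr.sq i
  · intro i k hik
    have hc := hr.comm i k hik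
    ext β
    · by_cases h : (i : ℕ) = j + 1
      · have h' : (k : ℕ) ≠ j + 1 := by omega
        have hk : r k ∈ edge r j := Gen.mem ⟨by omega, h'⟩
        have e1 := coe_mul_edge 1 hk
        have e2 := coe_mul_edge (r i) hk
        rw [one_mul] at e1
        rw [hc] at e2
        simp [lft, h, h', e1, e2]
      · by_cases h' : (k : ℕ) = j + 1
        · have hi : r i ∈ edge r j := Gen.mem ⟨by omega, h⟩
          have e1 := coe_mul_edge 1 hi
          have e2 := coe_mul_edge (r k) hi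
          rw [one_mul] at e1
          rw [← hc] at e2
          simp [lft, h, h', e1, e2]
        · simp [lft, h, h']
    · exact hc

lemma sep_lft (h : Sep r j) : Sep (lft r j m) (j + 1) := by
  intro j' hj x h1 h2
  rw [mem_Gen_lft (by omega) h1, h j' (by omega) x.g (proj_mem h1) (proj_mem h2), map_one]

lemma ip_lft (hm : 2 ≤ m) (hr : Str r) (hI : IP r j) (hS : Sep r j) :
    IP (lft r j m) (j + 1) := by
  classical
  intro k j' hj x h1 h2
  have hx := mem_Gen_lft (show ¬ j + 1 < j' by omega) h2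
  have g1 := proj_mem h1
  have g2 := proj_mem h2
  rw [hx]
  refine inr_mem (by omega) ?_
  rcases Nat.lt_or_ge j' (j + 1) with hj' | hj'
  · exact hI k j' (by omega) _ g1 g2
  obtain rfl : j' = j + 1 := by omega
  rcases Nat.lt_or_ge (j + 1) k with hk | hk
  · rw [hS j le_rfl x.g (Gen.mono (fun i _ h => by omega) g1) g2]
    exact one_mem _
  -- the main case
  set V : Subgroup G := Gen r fun i => k ≤ i ∧ i ≠ j + 1 with hV
  have hVle : V ≤ Gen r (k ≤ ·) := Gen.mono fun i _ h => h.1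
  let β0 : G ⧸ edge r j → ZMod m := fun q => if ∃ v ∈ V, (v : G ⧸ edge r j) = q then 1 else 0
  let χ : G → ZMod m := fun y => if y ∈ V then 1 else 0
  have hβ : ∀ y ∈ Gen r (k ≤ ·), β0 (y : G ⧸ edge r j) = χ y := by
    intro y hy
    refine if_congr ⟨?_, fun h => ⟨y, h, rfl⟩⟩ rfl rfl
    rintro ⟨v, hv, e⟩
    rw [QuotientGroup.eq] at e
    have h3 : v⁻¹ * y ∈ Gen r (k ≤ ·) := mul_mem (inv_mem (hVle hv)) hy
    obtain ⟨a, ha, b, hb, e'⟩ := hr.split (p := (· < j)) (q := (j + 2 ≤ ·))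
      (fun _ _ _ _ => by omega) (fun i _ h => by omega) e
    have hb' : b ∈ Gen r (k ≤ ·) := Gen.mono (fun i _ h => by omega) hb
    have ha' : a ∈ Gen r (k ≤ ·) := by
      have : a = v⁻¹ * y * b⁻¹ := by rw [e']; group
      rw [this]; exact mul_mem h3 (inv_mem hb')
    have ha2 := hI k j le_rfl a ha' ha
    have : y = v * (a * b) := by rw [← e']; group
    rw [this]
    exact mul_mem hv (mul_mem (Gen.mono (fun i _ h => by omega) ha2)
      (Gen.mono (fun i _ h => by omega) hb))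
  have claim : ∀ z ∈ Gen (lft r j m) (k ≤ ·), ∀ y ∈ Gen r (k ≤ ·),
      z.a (fun q => β0 (y • q)) = χ y - χ (y * z.g) := by
    intro z hz
    induction hz using Subgroup.closure_induction with
    | mem z hz =>
      obtain ⟨i, hi, rfl⟩ := hz
      intro y hy
      by_cases h : (i : ℕ) = j + 1
      · simp only [lft, h, if_true, MulAction.Quotient.smul_mk, smul_eq_mul, mul_one]
        rw [hβ y hy, hβ _ (mul_mem hy (Gen.mem hi))]
      · have hiV : r i ∈ V := Gen.mem ⟨hi, h⟩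
        simp only [lft, h, if_false, χ, mul_mem_cancel_right hiV, sub_self]
    | one => intro y _; simp
    | mul z w hz _ ihz ihw =>
      intro y hy
      have := ihw (y * z.g) (mul_mem hy (proj_mem hz))
      simp only [mul_smul] at this
      rw [Extn.mul_a, ihz y hy, this, Extn.mul_g, mul_assoc]; ring
    | inv z hz ihz =>
      intro y hy
      have := ihz (y * z.g⁻¹) (mul_mem hy (inv_mem (proj_mem hz)))
      simp only [mul_smul] at this
      rw [Extn.inv_a, this, Extn.inv_g]; simp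
  have h3 := claim x h1 1 (one_mem _)
  have h4 : x.a (fun q => β0 ((1 : G) • q)) = 0 := by rw [hx]; rfl
  have hxV : x.g ∈ V := by
    by_contra hne
    have : Fact (1 < m) := ⟨hm⟩
    rw [h4, one_mul] at h3
    simp [χ, hne] at h3
  obtain ⟨a, ha, b, hb, e⟩ := hr.split (p := fun i => k ≤ i ∧ i < j + 1) (q := (j + 2 ≤ ·))
    (fun _ _ _ _ => by omega) (fun i _ h => by omega) hxV
  have hb1 : b ∈ Gen r (· < j + 1) := by
    have : b = a⁻¹ * x.g := by rw [e]; group
    rw [this]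
    exact mul_mem (inv_mem (Gen.mono (fun i _ h => h.2) ha)) g2
  rw [e, hS j le_rfl b hb hb1, mul_one]
  exact ha

end

theorem exists_cover {G : Type u} [Group G] {r : Fin n → G} (hr : Str r) (hS : Sep r 0) {m : ℕ}
    (hm : 2 ≤ m) (j : ℕ) : ∃ (S : Type u) (_ : Group S) (s : Fin n → S) (π : S →* G),
      Str s ∧ IP s j ∧ Sep s j ∧ (∀ i, π (s i) = r i) ∧ ∀ x, π x = 1 → x ^ m ^ j = 1 := by
  induction j with
  | zero =>
    refine ⟨G, inferInstance, r, MonoidHom.id G, hr, ?_, hS, fun _ => rfl, fun x hx => by simpa using hx⟩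
    intro k j' hj x _ h2
    rw [Gen.eq_one (fun i _ h => by omega) h2]; exact one_mem _
  | succ j ih =>
    obtain ⟨S, _, s, π, h1, h2, h3, h4, h5⟩ := ih
    refine ⟨Extn S (edge s j) m, inferInstance, lft s j m, π.comp Extn.proj, str_lft h1,
      ip_lft hm h1 h2 h3, sep_lft h3, h4, fun x hx => ?_⟩
    rw [pow_succ, pow_mul]
    refine Extn.pow_eq_one ?_
    have := h5 x.g hx
    change Extn.proj (x ^ m ^ j) = 1
    rw [map_pow]; exact this

end Pool.Agent.Work.MP_159c4a_co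
end

-- merged part: Pool.Agent.Work.MP_159c4a_co.Coset
section
/-!
The regular polytope of a string C-group, and its covering onto a given polytope.
-/

namespace Pool.Agent.Work.MP_159c4a_co

universe u
variable {n : ℕ} {G : Type u} [Group G]

/-- data of a string C-group in working form -/
structure CG (s : Fin n → G) : Prop where
  str : Str s
  ip : IP s n
  ne : ∀ i, s i ≠ 1
  top : ∀ g, g ∈ Gen s fun _ => True

/-- stabiliser of the base face of index `i` (rank `i - 1`) -/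
abbrev stab (s : Fin n → G) (i : ℕ) : Subgroup G := Gen s fun j => j + 1 ≠ i

/-- the relation defining the faces -/
def cosetSetoid (s : Fin n → G) : Setoid (Fin (n + 2) × G) where
  r x y := x.1 = y.1 ∧ x.2⁻¹ * y.2 ∈ stab s x.1
  iseqv := ⟨fun x => ⟨rfl, by simp⟩,
    fun {x y} h => ⟨h.1.symm, by rw [← h.1]; simpa using inv_mem h.2⟩,
    fun {x y z} h h' => ⟨h.1.trans h'.1, by
      have := mul_mem h.2 (h.1 ▸ h'.2); simpa [mul_assoc] using this⟩⟩

/-- the faces -/
def CF (s : Fin n → G) : Type u := Quotient (cosetSetoid s)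

namespace CF

variable {s : Fin n → G}

/-- the face of index `i` through `g` -/
def mk (s : Fin n → G) (i : Fin (n + 2)) (g : G) : CF s := Quotient.mk (cosetSetoid s) (i, g)

lemma mk_eq {i j : Fin (n + 2)} {g h : G} :
    mk s i g = mk s j h ↔ i = j ∧ g⁻¹ * h ∈ stab s i := Quotient.eq

lemma mk_eq' {i : Fin (n + 2)} {g h : G} : mk s i g = mk s i h ↔ g⁻¹ * h ∈ stab s i := by
  simp [mk_eq]

/-- the index of a face -/
def idx (x : CF s) : Fin (n + 2) :=
  Quotient.lift (s := cosetSetoid s) (fun p => p.1) (fun _ _ h => h.1) x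

@[simp] lemma idx_mk (i : Fin (n + 2)) (g : G) : idx (mk s i g) = i := rfl

lemma exists_mk (x : CF s) : ∃ g, x = mk s x.idx g := by
  induction x using Quotient.inductionOn with
  | h p => exact ⟨p.2, rfl⟩

lemma helly (hs : Str s) {a : Fin (n + 2)} {g h : G} (e : mk s a g = mk s a h) :
    ∃ k, (∀ c ≤ a, mk s c k = mk s c g) ∧ ∀ c, a ≤ c → mk s c k = mk s c h := by
  rw [mk_eq'] at e
  obtain ⟨x, hx, y, hy, e'⟩ := hs.split (p := fun j => j + 1 < a) (q := fun j => a < j + 1)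
    (fun _ _ _ _ => by omega) (fun i _ h => by omega) e
  have hc := (hs.commute (p := fun j => j + 1 < a) (q := fun j => a < j + 1)
    (fun _ _ _ _ => by omega) hx hy).eq
  refine ⟨g * y, fun c hc => ?_, fun c hc' => ?_⟩
  · rw [mk_eq']
    have : (c : ℕ) ≤ a := hc
    simpa using Gen.mono (fun i _ h => by omega) hy
  · rw [mk_eq']
    have : (a : ℕ) ≤ c := hc'
    rw [mul_inv_rev, mul_assoc, e', hc, inv_mul_cancel_left]
    exact Gen.mono (fun i _ h => by omega) hx

/-- the order -/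
def le (x y : CF s) : Prop := x.idx ≤ y.idx ∧ ∃ g, x = mk s x.idx g ∧ y = mk s y.idx g

/-- the partial order -/
@[reducible] def po (hs : Str s) : PartialOrder (CF s) where
  le := le
  le_refl x := ⟨le_rfl, (exists_mk x).imp fun _ h => ⟨h, h⟩⟩
  le_trans x y z := by
    rintro ⟨h1, g, e1, e2⟩ ⟨h2, h, e3, e4⟩
    obtain ⟨k, k1, k2⟩ := helly hs (e2.symm.trans e3)
    exact ⟨h1.trans h2, k, by rw [k1 _ h1]; exact e1, by rw [k2 _ h2]; exact e4⟩
  le_antisymm x y := by
    rintro ⟨h1, g, e1, e2⟩ ⟨h2, -⟩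
    rw [e1, e2, le_antisymm h1 h2]

lemma mk_le_mk {i j : Fin (n + 2)} (h : i ≤ j) (g : G) : le (mk s i g) (mk s j g) :=
  ⟨h, g, rfl, rfl⟩

lemma stab_top (hs : CG s) {i : ℕ} (h : i = 0 ∨ i = n + 1) (g : G) : g ∈ stab s i :=
  Gen.mono (fun j hj _ => by omega) (hs.top g)

/-- least and greatest faces -/
@[reducible] def bo (hs : CG s) : @BoundedOrder (CF s) (po hs.str).toLE :=
  letI := po hs.str
  { bot := mk s 0 1
    bot_le := fun x => by
      obtain ⟨g, e⟩ := exists_mk x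
      exact ⟨Fin.zero_le _, g, mk_eq'.2 (stab_top hs (Or.inl rfl) _), e⟩
    top := mk s (Fin.last _) 1
    le_top := fun x => by
      obtain ⟨g, e⟩ := exists_mk x
      exact ⟨Fin.le_last _, g, e, mk_eq'.2 (stab_top hs (Or.inr rfl) _)⟩ }

lemma eq_of_le_of_idx {x y : CF s} (h : le x y) (e : x.idx = y.idx) : x = y := by
  obtain ⟨-, g, e1, e2⟩ := h
  rw [e1, e2, e]

lemma chain_common (hs : Str s) {C : Set (CF s)} (hC : IsChain le C) (t : ℕ) :
    ∀ y ∈ C, t ≤ (y.idx : ℕ) → ∃ g, (∀ x ∈ C, (x.idx : ℕ) < t → x = mk s x.idx g) ∧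
      y = mk s y.idx g := by
  have hle : ∀ x ∈ C, ∀ y ∈ C, x.idx ≤ y.idx → le x y := by
    intro x hx y hy h
    by_cases e : x = y
    · exact e ▸ (po hs).le_refl x
    · rcases hC hx hy e with h1 | h1
      · exact h1
      · exact absurd (eq_of_le_of_idx h1 (le_antisymm h1.1 h)).symm e
  induction t with
  | zero =>
    intro y _ _
    obtain ⟨g, e⟩ := exists_mk y
    exact ⟨g, fun x _ h => absurd h (by omega), e⟩
  | succ t ih =>
    intro y hy ht
    by_cases hz : ∃ z ∈ C, (z.idx : ℕ) = t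
    · obtain ⟨z, hz, e⟩ := hz
      obtain ⟨g, g1, g2⟩ := ih z hz e.ge
      obtain ⟨h1, h, e1, e2⟩ := hle z hz y hy (show (z.idx : ℕ) ≤ y.idx by omega)
      obtain ⟨k, k1, k2⟩ := helly hs (g2.symm.trans e1)
      refine ⟨k, fun x hx hxt => ?_, by rw [k2 _ h1]; exact e2⟩
      rw [k1 _ (show (x.idx : ℕ) ≤ z.idx by omega)]
      rcases Nat.lt_succ_iff_lt_or_eq.1 hxt with h2 | h2
      · exact g1 x hx h2
      · have e3 : x.idx = z.idx := Fin.ext (by omega)
        rw [eq_of_le_of_idx (hle x hx z hz e3.le) e3]; exact g2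
    · obtain ⟨g, g1, g2⟩ := ih y hy (by omega)
      refine ⟨g, fun x hx hxt => g1 x hx ?_, g2⟩
      have : (x.idx : ℕ) ≠ t := fun e => hz ⟨x, hx, e⟩
      omega

lemma isChain_range (g : G) : IsChain le (Set.range fun i => mk s i g) := by
  rintro _ ⟨i, rfl⟩ _ ⟨j, rfl⟩ -
  exact (le_total i j).imp (fun h => mk_le_mk h g) fun h => mk_le_mk h g

/-- the flag through `g` -/
def flagOf (hs : Str s) (g : G) : @Flag (CF s) (po hs).toLE :=
  letI := po hs
  Flag.ofIsMaxChain (Set.range fun i => mk s i g) ⟨isChain_range g, fun D hD hCD =>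
    Set.Subset.antisymm hCD fun y hy => by
      refine ⟨y.idx, ?_⟩
      by_contra hne
      rcases hD (hCD ⟨y.idx, rfl⟩) hy hne with h | h
      · exact hne (eq_of_le_of_idx h rfl)
      · exact hne (eq_of_le_of_idx h rfl).symm⟩

lemma mem_flagOf (hs : Str s) {g : G} {x : CF s} :
    (letI := po hs; x ∈ flagOf hs g) ↔ x = mk s x.idx g :=
  ⟨fun ⟨_, e⟩ => e ▸ rfl, fun e => ⟨_, e.symm⟩⟩

lemma exists_flagOf (hs : CG s) (Φ : @Flag (CF s) (po hs.str).toLE) :
    ∃ g, Φ = flagOf hs.str g := by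
  let _ := po hs.str
  let _ := bo hs
  obtain ⟨g, g1, g2⟩ := chain_common hs.str Φ.chain_le (n + 1) ⊤ Φ.top_mem le_rfl
  refine ⟨g, Flag.ext (Φ.maxChain.2 (flagOf hs.str g).chain_le fun x hx => ?_)⟩
  refine (mem_flagOf hs.str).2 ?_
  rcases Nat.lt_or_ge (x.idx : ℕ) (n + 1) with h | h
  · exact g1 x hx h
  · obtain ⟨k, e⟩ := exists_mk x
    refine e.trans (mk_eq'.2 (stab_top hs (Or.inr ?_) _))
    have := x.idx.2
    omega

lemma not_mem_stab (hs : CG s) (i : Fin n) : s i ∉ stab s (i + 1) := by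
  intro h
  refine hs.ne i (Gen.eq_one ?_ (hs.str.inter hs.ip _ (· = i) h (Gen.mem rfl)))
  rintro j _ ⟨h1, h2⟩
  omega

lemma mem_Gen_single (hs : Str s) (i : Fin n) {a : G} (ha : a ∈ Gen s (· = i)) :
    a = 1 ∨ a = s i := by
  induction ha using Subgroup.closure_induction with
  | mem x hx =>
    obtain ⟨j, hj, rfl⟩ := hx
    exact Or.inr (congrArg s (Fin.ext hj))
  | one => exact Or.inl rfl
  | mul x y _ _ hx hy =>
    rcases hx with rfl | rfl <;> rcases hy with rfl | rfl <;> simp [hs.sq i]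
  | inv x _ hx =>
    rcases hx with rfl | rfl
    · simp
    · exact Or.inr (inv_eq_of_mul_eq_one_left (hs.sq i))

lemma middle (hs : CG s) (i : Fin n) {x : G} (h1 : x ∈ stab s i) (h2 : x ∈ stab s (i + 2)) :
    x ∈ stab s (i + 1) ∨ (s i)⁻¹ * x ∈ stab s (i + 1) := by
  have h := hs.str.inter hs.ip _ _ h1 h2
  obtain ⟨a, ha, b, hb, rfl⟩ := hs.str.split (p := fun j => j ≤ i ∧ j + 1 ≠ i)
    (q := fun j => i + 2 ≤ j) (fun _ _ _ _ => by omega) (fun i _ h => by omega) h
  obtain ⟨c, hc, d, hd, rfl⟩ := hs.str.split (p := fun j => j + 1 < i)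
    (q := fun j => j = i) (fun _ _ _ _ => by omega) (fun i _ h => by omega) ha
  have hcd := (hs.str.commute (p := fun j => j + 1 < i) (q := fun j => j = i)
    (fun _ _ _ _ => by omega) hc hd).eq
  have hcb : c * b ∈ stab s (i + 1) :=
    mul_mem (Gen.mono (fun i _ h => by omega) hc) (Gen.mono (fun i _ h => by omega) hb)
  rw [hcd]
  rcases mem_Gen_single hs.str i hd with rfl | rfl
  · left; simpa using hcb
  · right; simpa [mul_assoc] using hcb

lemma adj_flagOf (hs : CG s) (i : Fin n) (g : G) : flagOf hs.str g ≠ flagOf hs.str (g * s i) ∧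
    ∀ F : CF s, ((F.idx : ℕ) : ℤ) - 1 ≠ (i : ℕ) →
      ((letI := po hs.str; F ∈ flagOf hs.str g) ↔
        (letI := po hs.str; F ∈ flagOf hs.str (g * s i))) := by
  constructor
  · intro h
    have h1 := (mem_flagOf hs.str (g := g) (x := mk s ⟨i + 1, by omega⟩ g)).2 rfl
    rw [h, mem_flagOf, idx_mk, mk_eq'] at h1
    exact not_mem_stab hs i (by simpa using h1)
  · intro F hF
    rw [mem_flagOf, mem_flagOf]
    have : mk s F.idx g = mk s F.idx (g * s i) := by
      rw [mk_eq']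
      simpa using Gen.mem (r := s) (p := fun j => j + 1 ≠ F.idx) (i := i) (by omega)
    rw [this]

lemma lt_iff (hs : Str s) {x y : CF s} :
    (letI := po hs; x < y) ↔ le x y ∧ (x.idx : ℕ) < y.idx := by
  let _ := po hs
  rw [lt_iff_le_and_ne]
  refine and_congr_right fun h => ⟨fun hne => ?_, fun hlt e => ?_⟩
  · exact lt_of_le_of_ne h.1 fun e => hne (eq_of_le_of_idx h (Fin.ext e))
  · rw [e] at hlt; exact lt_irrefl _ hlt

end CF

open CF in
/-- the polytope of a string C-group -/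
def cosetPolytope {s : Fin n → G} (hs : CG s) : Polytope.{u} n :=
  letI := po hs.str
  letI := bo hs
  { Face := CF s
    rank := fun x => ((x.idx : ℕ) : ℤ) - 1
    rank_strictMono := fun x y h => by
      have := ((lt_iff hs.str).1 h).2
      simp only
      omega
    range_rank := by
      ext k
      constructor
      · rintro ⟨x, rfl⟩
        have := x.idx.2
        constructor <;> simp only <;> omega
      · rintro ⟨h1, h2⟩
        exact ⟨mk s ⟨(k + 1).toNat, by omega⟩ 1, by simp only [idx_mk]; omega⟩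
    flag_card := fun Φ => by
      obtain ⟨g, rfl⟩ := exists_flagOf hs Φ
      change (Set.range fun i => mk s i g).ncard = _
      rw [Set.ncard_range_of_injective fun i j h => (mk_eq.1 h).1]
      simp
    diamond := fun F K hFK hr => by
      obtain ⟨⟨-, g, e1, e2⟩, -⟩ := (lt_iff hs.str).1 hFK
      have hK := K.idx.2
      let i : Fin n := ⟨F.idx, by omega⟩
      let c : Fin (n + 2) := ⟨F.idx + 1, by omega⟩
      have hi : (i : ℕ) = F.idx := rfl
      have hc : (c : ℕ) = F.idx + 1 := rfl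
      have hK2 : (K.idx : ℕ) = i + 2 := by omega
      refine Set.ncard_eq_two.2 ⟨mk s c g, mk s c (g * s i), ?_, ?_⟩
      · rw [Ne, mk_eq']
        simpa using not_mem_stab hs i
      · ext H
        simp only [Set.mem_ofPred_eq, Set.mem_insert_iff, Set.mem_singleton_iff]
        rw [lt_iff hs.str, lt_iff hs.str]
        constructor
        · rintro ⟨⟨⟨a1, h, a2, a3⟩, a4⟩, ⟨b1, h', b2, b3⟩, b4⟩
          obtain ⟨k, k1, k2⟩ := helly hs.str (a3.symm.trans b2)
          have hH : H.idx = c := Fin.ext (by omega)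
          have f1 : mk s F.idx g = mk s F.idx k := by rw [k1 _ a1, ← a2, ← e1]
          have f2 : mk s K.idx g = mk s K.idx k := by rw [k2 _ b1, ← b3, ← e2]
          have f3 : H = mk s c k := by rw [← hH, k1 _ le_rfl]; exact a3
          rw [mk_eq'] at f1 f2
          rw [hK2] at f2
          rw [f3, eq_comm, mk_eq', eq_comm, mk_eq', mul_inv_rev, mul_assoc]
          exact middle hs i f1 f2
        · have m1 : s i ∈ stab s F.idx := Gen.mem (by omega)
          have m2 : s i ∈ stab s K.idx := Gen.mem (by omega)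
          have e3 : F = mk s F.idx (g * s i) := e1.trans (mk_eq'.2 (by simpa using m1))
          have e4 : K = mk s K.idx (g * s i) := e2.trans (mk_eq'.2 (by simpa using m2))
          have l1 : F.idx ≤ c := show (F.idx : ℕ) ≤ c by omega
          have l2 : c ≤ K.idx := show (c : ℕ) ≤ K.idx by omega
          rintro (rfl | rfl)
          · exact ⟨⟨⟨l1, g, e1, rfl⟩, by rw [idx_mk]; omega⟩, ⟨l2, g, rfl, e2⟩,
              by rw [idx_mk]; omega⟩
          · exact ⟨⟨⟨l1, _, e3, rfl⟩, by rw [idx_mk]; omega⟩, ⟨l2, _, rfl, e4⟩,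
              by rw [idx_mk]; omega⟩
    connected := fun Φ Ψ => by
      obtain ⟨g, rfl⟩ := exists_flagOf hs Φ
      obtain ⟨h, rfl⟩ := exists_flagOf hs Ψ
      let T : ℕ → Prop := fun c => g⁻¹ * h ∈ stab s c
      have h1 : ∀ t : ℕ, g⁻¹ * h ∈ Gen s fun j => j < t → ¬ T (j + 1) := by
        intro t
        induction t with
        | zero => exact Gen.mono (fun j _ _ h => by omega) (hs.top _)
        | succ t ih =>
          by_cases ht : T (t + 1)
          · refine Gen.mono ?_ (hs.str.inter hs.ip _ _ ih ht)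
            rintro j _ ⟨a, b⟩ c
            exact a (by omega)
          · refine Gen.mono ?_ ih
            intro j _ a c
            rcases Nat.lt_succ_iff_lt_or_eq.1 c with c | rfl
            · exact a c
            · exact ht
      have h2 : g⁻¹ * h ∈ Gen s fun j => ¬ T (j + 1) := Gen.mono (fun j hj a => a hj) (h1 n)
      have hin : ∀ x ∈ Gen s (fun j => ¬ T (j + 1)), ∀ F, F ∈ flagOf hs.str g →
          F ∈ flagOf hs.str h → F ∈ flagOf hs.str (g * x) := by
        intro x hx F a b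
        rw [mem_flagOf] at a b ⊢
        have hT : T F.idx := mk_eq'.1 (a.symm.trans b)
        refine a.trans (mk_eq'.2 ?_)
        rw [inv_mul_cancel_left]
        exact Gen.mono (fun j _ c (e : j + 1 = F.idx) => c (e ▸ hT)) hx
      have key : ∀ x ∈ Gen s (fun j => ¬ T (j + 1)), Relation.ReflTransGen
          (fun A B : Flag (CF s) =>
            (∃ i : Fin n, A ≠ B ∧ ∀ F : CF s, ((F.idx : ℕ) : ℤ) - 1 ≠ (i : ℕ) →
              (F ∈ A ↔ F ∈ B)) ∧
            ∀ F, F ∈ flagOf hs.str g → F ∈ flagOf hs.str h → F ∈ A ∧ F ∈ B)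
          (flagOf hs.str g) (flagOf hs.str (g * x)) := by
        intro x hx
        induction hx using Subgroup.closure_induction_right with
        | one => rw [mul_one]
        | mul_right x hx y hy ih =>
          obtain ⟨i, hi, rfl⟩ := hy
          refine ih.tail ⟨⟨i, ?_⟩, fun F a b => ⟨hin x hx F a b,
            hin _ (mul_mem hx (Gen.mem hi)) F a b⟩⟩
          rw [← mul_assoc]
          exact adj_flagOf hs i _
        | mul_inv_cancel x hx y hy ih =>
          obtain ⟨i, hi, rfl⟩ := hy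
          rw [inv_eq_of_mul_eq_one_left (hs.str.sq i)]
          refine ih.tail ⟨⟨i, ?_⟩, fun F a b => ⟨hin x hx F a b,
            hin _ (mul_mem hx (Gen.mem hi)) F a b⟩⟩
          rw [← mul_assoc]
          exact adj_flagOf hs i _
      have := key _ h2
      rwa [mul_inv_cancel_left] at this }

namespace CF

variable {s : Fin n → G}

/-- left multiplication on faces -/
def lmul (s : Fin n → G) (a : G) (x : CF s) : CF s :=
  Quotient.lift (s := cosetSetoid s) (fun p => mk s p.1 (a * p.2)) (fun p q h => mk_eq.2 ⟨h.1, by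
    have := h.2; simpa [mul_assoc] using this⟩) x

@[simp] lemma lmul_mk (a : G) (i : Fin (n + 2)) (g : G) :
    lmul s a (mk s i g) = mk s i (a * g) := rfl

lemma lmul_le (a : G) {x y : CF s} (h : le x y) : le (lmul s a x) (lmul s a y) := by
  obtain ⟨h1, g, e1, e2⟩ := h
  rw [e1, e2]
  exact mk_le_mk h1 _

lemma lmul_lmul {a b : G} (h : a * b = 1) (x : CF s) : lmul s a (lmul s b x) = x := by
  obtain ⟨g, e⟩ := exists_mk x
  rw [e, lmul_mk, lmul_mk, ← mul_assoc, h, one_mul]

end CF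

open CF

lemma coset_regular {s : Fin n → G} (hs : CG s) : (cosetPolytope hs).Regular := by
  intro Φ Ψ
  obtain ⟨g, rfl⟩ := exists_flagOf hs Φ
  obtain ⟨h, rfl⟩ := exists_flagOf hs Ψ
  let f : (cosetPolytope hs).Face ≃o (cosetPolytope hs).Face :=
    { toFun := lmul s (h * g⁻¹)
      invFun := lmul s (g * h⁻¹)
      left_inv := lmul_lmul (by group)
      right_inv := lmul_lmul (by group)
      map_rel_iff' := by
        intro x y
        refine ⟨fun hh => ?_, lmul_le _⟩
        have := lmul_le (g * h⁻¹) hh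
        simp only [Equiv.coe_fn_mk] at this
        rwa [lmul_lmul (by group), lmul_lmul (by group)] at this }
  refine ⟨f, Flag.ext ?_⟩
  change lmul s (h * g⁻¹) '' (Set.range fun i => mk s i g) = Set.range fun i => mk s i h
  rw [← Set.range_comp]
  congr 1
  ext i
  simp

lemma coset_monGen {s : Fin n → G} (hs : CG s) (i : Fin n) (g : G) :
    (cosetPolytope hs).monGen i (flagOf hs.str g) = flagOf hs.str (g * s i) :=
  Polytope.monGen_eq (P := cosetPolytope hs) (adj_flagOf hs i g)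

lemma coset_word {s : Fin n → G} (hs : CG s) (w : FreeGroup (Fin n))
    (hw : FreeGroup.lift s w = 1) : FreeGroup.lift (cosetPolytope hs).monGen w = 1 := by
  have key : ∀ (w : FreeGroup (Fin n)) (g : G), FreeGroup.lift (cosetPolytope hs).monGen w
      (flagOf hs.str g) = flagOf hs.str (g * (FreeGroup.lift s w)⁻¹) := by
    intro w
    induction w using FreeGroup.induction_on with
    | C1 => intro g; simp
    | of i =>
      intro g
      rw [FreeGroup.lift_apply_of, FreeGroup.lift_apply_of,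
        inv_eq_of_mul_eq_one_left (hs.str.sq i)]
      exact coset_monGen hs i g
    | inv_of i _ =>
      intro g
      rw [map_inv, map_inv, FreeGroup.lift_apply_of, FreeGroup.lift_apply_of, inv_inv,
        inv_eq_of_mul_eq_one_left (Polytope.monGen_sq i)]
      exact coset_monGen hs i g
    | mul x y hx hy =>
      intro g
      rw [map_mul, map_mul, Equiv.Perm.mul_apply, hy, hx, mul_inv_rev, mul_assoc]
  refine Equiv.ext fun Φ => ?_
  obtain ⟨g, rfl⟩ := exists_flagOf hs Φ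
  rw [key, hw, inv_one, mul_one]; rfl

open Polytope in
lemma coset_covers {s : Fin n → G} (hs : CG s) (P : Polytope.{u} n)
    (π : G →* Equiv.Perm (Flag P.Face)) (hπ : ∀ i, π (s i) = P.monGen i) :
    (cosetPolytope hs).Covers P := by
  obtain ⟨Φ₀⟩ := nonempty_flag (P := P)
  have hmem : ∀ (p : ℕ → Prop) (x : G), x ∈ Gen s p →
      π x ∈ Subgroup.closure (P.monGen '' {i | p i}) := by
    intro p x hx
    induction hx using Subgroup.closure_induction with
    | mem x hx =>
      obtain ⟨i, hi, rfl⟩ := hx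
      exact hπ i ▸ Subgroup.subset_closure ⟨i, hi, rfl⟩
    | one => rw [map_one]; exact one_mem _
    | mul x y _ _ hx hy => rw [map_mul]; exact mul_mem hx hy
    | inv x _ hx => rw [map_inv]; exact inv_mem hx
  let φ : CF s → P.Face := fun x => Quotient.lift
    (fun p : Fin (n + 2) × G => face ((π p.2)⁻¹ Φ₀) (((p.1 : ℕ) : ℤ) - 1)) (by
      rintro ⟨i, g⟩ ⟨j, h⟩ ⟨e, hh⟩
      dsimp only at e hh ⊢
      subst e
      have h1 := inv_mem (hmem _ _ hh)
      have h2 := face_of_mem_closure h1 (k := ((i : ℕ) : ℤ) - 1)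
        (fun j hj e => hj (by omega)) ((π g)⁻¹ Φ₀)
      rw [← h2, ← Equiv.Perm.mul_apply]
      congr 2
      simp) x
  have hφ : ∀ i g, φ (mk s i g) = face ((π g)⁻¹ Φ₀) (((i : ℕ) : ℤ) - 1) := fun _ _ => rfl
  have hr : ∀ (i : Fin (n + 2)) (Φ : Flag P.Face),
      P.rank (face Φ (((i : ℕ) : ℤ) - 1)) = ((i : ℕ) : ℤ) - 1 := fun i Φ =>
    rank_face Φ (by omega) (by have := i.2; omega)
  have himg : ∀ g, ((((π g)⁻¹ Φ₀ : Flag P.Face)) : Set P.Face) =
      φ '' (Set.range fun i => mk s i g) := by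
    intro g
    ext F
    constructor
    · intro hF
      have := P.rank_mem F
      refine ⟨_, ⟨⟨(P.rank F + 1).toNat, by omega⟩, rfl⟩, ?_⟩
      rw [hφ]
      refine Eq.trans ?_ (face_eq hF)
      congr 1
      simp only
      omega
    · rintro ⟨_, ⟨i, rfl⟩, rfl⟩
      exact face_mem _ _
  refine ⟨φ, fun F => ?_, ?_, ?_, ?_⟩
  · obtain ⟨Φ, hΦ⟩ := Flag.exists_mem F
    obtain ⟨σ, hσ, rfl⟩ := exists_of_agree (I := Set.univ) (Φ := Φ₀) (Ψ := Φ) (by simp)
    obtain ⟨g, rfl⟩ : ∃ g, (π g)⁻¹ = σ := by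
      clear hΦ
      induction hσ using Subgroup.closure_induction with
      | mem x hx =>
        obtain ⟨i, -, rfl⟩ := hx
        exact ⟨(s i)⁻¹, by simp [hπ]⟩
      | one => exact ⟨1, by simp⟩
      | mul x y _ _ hx hy =>
        obtain ⟨a, rfl⟩ := hx
        obtain ⟨b, rfl⟩ := hy
        exact ⟨b * a, by simp⟩
      | inv x _ hx =>
        obtain ⟨a, rfl⟩ := hx
        exact ⟨a⁻¹, by simp⟩
    have : F ∈ φ '' (Set.range fun i => mk s i g) := himg g ▸ hΦ
    obtain ⟨x, -, e⟩ := this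
    exact ⟨x, e⟩
  · rintro x y ⟨h1, g, e1, e2⟩
    rw [e1, e2, hφ, hφ]
    refine le_of_rank_le (Flag.chain_le _) (face_mem _ _) (face_mem _ _) ?_
    rw [hr, hr]
    have : (CF.idx x : ℕ) ≤ CF.idx y := h1
    omega
  · intro x
    obtain ⟨g, e⟩ := exists_mk x
    rw [e, hφ, hr]; rfl
  · intro i Φ Ψ h
    obtain ⟨g, rfl⟩ := exists_flagOf hs Φ
    have e := (monGen_eq h).symm
    rw [coset_monGen] at e
    subst e
    refine ⟨(π g)⁻¹ Φ₀, (π (g * s i))⁻¹ Φ₀, himg g, himg _, ?_⟩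
    rw [map_mul, mul_inv_rev, hπ, inv_eq_of_mul_eq_one_left (monGen_sq i)]
    exact adj_monGen i _

end Pool.Agent.Work.MP_159c4a_co
end
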