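import Mathlib

/-!
Definitions for problem MP_159c4a_co (abstract polytopes, monodromy groups, coverings),
copied from the problem file.
-/

namespace Pool.Agent.Work.MP_159c4a_co

universe u

/-- An abstract `n`-polytope. Flags are the maximal chains (`Flag` in Mathlib). -/
structure Polytope (n : ℕ) where
  /-- the faces -/
  Face : Type u
  /-- the partial order on the faces -/
  [po : PartialOrder Face]
  /-- a least and a greatest face -/
  [bo : BoundedOrder Face]
  /-- the rank function -/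
  rank : Face → ℤ
  /-- the rank increases strictly along the order -/
  rank_strictMono : StrictMono rank
  /-- the rank function is onto `{-1, 0, …, n}` -/
  range_rank : Set.range rank = Set.Icc (-1 : ℤ) n
  /-- every flag has exactly `n + 2` faces -/
  flag_card : ∀ Φ : Flag Face, (Φ : Set Face).ncard = n + 2
  /-- the diamond condition -/
  diamond : ∀ F G : Face, F < G → rank G - rank F = 2 → {H | F < H ∧ H < G}.ncard = 2
  /-- strong flag-connectivity: any two flags `Φ`, `Ψ` are joined by a sequence of successively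
  adjacent flags, all containing `Φ ∩ Ψ` -/
  connected : ∀ Φ Ψ : Flag Face, Relation.ReflTransGen
    (fun A B : Flag Face =>
      (∃ i : Fin n, A ≠ B ∧ ∀ F, rank F ≠ (i : ℕ) → (F ∈ A ↔ F ∈ B)) ∧
        ∀ F, F ∈ Φ → F ∈ Ψ → F ∈ A ∧ F ∈ B) Φ Ψ

attribute [instance] Polytope.po Polytope.bo

variable {n : ℕ}

/-- `Ψ = Φ^i`: the flags `Φ` and `Ψ` differ exactly in their face of rank `i`. -/
def Polytope.Adj (P : Polytope.{u} n) (i : Fin n) (Φ Ψ : Flag P.Face) : Prop :=
  Φ ≠ Ψ ∧ ∀ F, P.rank F ≠ (i : ℕ) → (F ∈ Φ ↔ F ∈ Ψ)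

open Classical in
/-- The distinguished generator `π(r_i)` of the monodromy group: the permutation `Φ ↦ Φ^i` of
the flags. -/
noncomputable def Polytope.monGen (P : Polytope.{u} n) (i : Fin n) :
    Equiv.Perm (Flag P.Face) :=
  if h : ∃ σ : Equiv.Perm (Flag P.Face), ∀ Φ, P.Adj i Φ (σ Φ) then h.choose else 1

/-- A polytope is regular if its automorphism group is transitive on flags. -/
def Polytope.Regular (P : Polytope.{u} n) : Prop :=
  ∀ Φ Ψ : Flag P.Face, ∃ f : P.Face ≃o P.Face, Flag.map f Φ = Ψ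

/-- `P` covers `Q`: there is a surjection preserving order, rank and `i`-adjacency of flags. -/
def Polytope.Covers (P Q : Polytope.{u} n) : Prop :=
  ∃ φ : P.Face → Q.Face, Function.Surjective φ ∧ Monotone φ ∧ (∀ F, Q.rank (φ F) = P.rank F) ∧
    ∀ (i : Fin n) (Φ Ψ : Flag P.Face), P.Adj i Φ Ψ → ∃ Φ' Ψ' : Flag Q.Face,
      (Φ' : Set Q.Face) = φ '' Φ ∧ (Ψ' : Set Q.Face) = φ '' Ψ ∧ Q.Adj i Φ' Ψ'

/-- The group generated by `ρ_0, …, ρ_{n-1}` is a string C-group: the `ρ_i` are involutions,
`ρ_i` and `ρ_j` commute for `|i - j| ≥ 2`, and the intersection property holds. -/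
def IsStringCGroup {G : Type*} [Group G] (ρ : Fin n → G) : Prop :=
  (∀ i, orderOf (ρ i) = 2) ∧
  (∀ i j : Fin n, (i : ℕ) + 2 ≤ j → ρ i * ρ j = ρ j * ρ i) ∧
  ∀ I J : Set (Fin n), Subgroup.closure (ρ '' I) ⊓ Subgroup.closure (ρ '' J) =
    Subgroup.closure (ρ '' (I ∩ J))

end Pool.Agent.Work.MP_159c4a_co
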